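import Mathlib
import Pool.Agent.H312R2.Diam

/-! Pigeonhole: few blocks of `l` consecutive primes are determined by their pattern. -/

open Finset Filter Topology

namespace Pool.Agent.H312R3.LK

open Pool.Agent.H312R2

/-- the offsets of the `l` primes from `P m` on -/
noncomputable def off (m l : ℕ) : Fin l → ℕ := fun i => P (m + i) - P m

lemma off_mono (m l : ℕ) : StrictMono (off m l) := by
  intro i j hij
  have h1 : P m ≤ P (m + i) := P_mono.monotone (by omega)
  have h2 : P (m + i) < P (m + j) := P_mono (by have : i.1 < j.1 := hij; omega)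
  unfold off
  omega

/-- narrow blocks which are determined by their pattern -/
lemma card_narrow (l D : ℕ) (S : Finset ℕ) (h1 : ∀ m ∈ S, ∀ m' ∈ S, off m l = off m' l → m = m')
    (h2 : ∀ m ∈ S, ∀ i : Fin l, off m l i ≤ D) : #S ≤ (D + 1).choose l := by
  classical
  have h3 : #S ≤ #((range (D + 1)).powersetCard l) := by
    apply card_le_card_of_injOn (fun m => univ.image (off m l))
    · intro m hm
      simp only [mem_coe, mem_powersetCard] at hm ⊢
      refine ⟨?_, ?_⟩
      · intro x hx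
        obtain ⟨i, -, rfl⟩ := mem_image.1 hx
        rw [mem_range]
        exact Nat.lt_succ_of_le (h2 m hm i)
      · rw [card_image_of_injective _ (off_mono m l).injective, card_univ, Fintype.card_fin]
    · intro m hm m' hm' he
      apply h1 m hm m' hm'
      apply ((off_mono m l).range_inj (off_mono m' l)).1
      have h4 := congrArg (fun s : Finset ℕ => (s : Set ℕ)) he
      simpa using h4
  rwa [card_powersetCard, card_range] at h3

lemma choose_bound (n l : ℕ) (hl : 1 ≤ l) : ((n.choose l : ℕ) : ℝ) ≤ (Real.exp 1 * n / l) ^ l := by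
  have hl0 : (0 : ℝ) < l := by exact_mod_cast hl
  have h1 : ((n.choose l : ℕ) : ℝ) ≤ (n : ℝ) ^ l / l.factorial := Nat.choose_le_pow_div l n
  have h2 := Real.pow_div_factorial_le_exp (l : ℝ) hl0.le l
  have h3 : (n : ℝ) ^ l / l.factorial = (n / l : ℝ) ^ l * ((l : ℝ) ^ l / l.factorial) := by
    rw [div_pow]
    field_simp
  have h4 : Real.exp (l : ℝ) = Real.exp 1 ^ l := by
    rw [← Real.exp_nat_mul, mul_one]
  calc ((n.choose l : ℕ) : ℝ) ≤ (n / l : ℝ) ^ l * ((l : ℝ) ^ l / l.factorial) := h1.trans_eq h3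
    _ ≤ (n / l : ℝ) ^ l * Real.exp 1 ^ l := by
        rw [← h4]
        exact mul_le_mul_of_nonneg_left h2 (by positivity)
    _ = _ := by rw [← mul_pow]; congr 1; ring

/-- wide blocks are few -/
lemma card_wide (N l : ℕ) (hl : l ≤ N) (D : ℕ) (S : Finset ℕ) (hS : ∀ m ∈ S, m < N ∧ D < P (m + l) - P m) :
    #S * (D + 1) ≤ l * P (2 * N) := by
  calc #S * (D + 1) = #S • (D + 1) := by rw [smul_eq_mul]
    _ ≤ ∑ m ∈ S, (P (m + l) - P m) := card_nsmul_le_sum _ _ _ (fun m hm => (hS m hm).2)
    _ ≤ ∑ m ∈ range N, (P (m + l) - P m) :=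
        sum_le_sum_of_subset (fun m hm => mem_range.2 (hS m hm).1)
    _ ≤ l * P (N + l) := sum_gap N l
    _ ≤ l * P (2 * N) := Nat.mul_le_mul_left _ (P_mono.monotone (by omega))

/-- `P (2 N) ≤ 11 N log N` -/
lemma P_two_le : ∀ᶠ N : ℕ in atTop, (P (2 * N) : ℝ) ≤ 11 * N * Real.log N := by
  obtain ⟨n0, h0⟩ := pi_lower
  have e1 : ∀ᶠ N : ℕ in atTop, 11 * Real.log N ≤ (N : ℝ) := by
    have h := (Real.isLittleO_log_id_atTop.def (show (0 : ℝ) < 1 / 11 by norm_num))
    have h2 := tendsto_natCast_atTop_atTop (R := ℝ) |>.eventually h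
    filter_upwards [h2, eventually_ge_atTop 1] with N h3 h4
    have hN : (1 : ℝ) ≤ N := by exact_mod_cast h4
    simp only [id, Real.norm_eq_abs] at h3
    rw [abs_of_nonneg (Real.log_nonneg hN), abs_of_nonneg (by linarith : (0 : ℝ) ≤ N)] at h3
    linarith
  have e2 : ∀ᶠ N : ℕ in atTop, (1 : ℝ) ≤ Real.log N :=
    (Real.tendsto_log_atTop.comp tendsto_natCast_atTop_atTop).eventually_ge_atTop 1
  filter_upwards [e1, e2, eventually_ge_atTop (n0 + 2)] with N h1 h2 h3
  have hN : (2 : ℝ) ≤ N := by exact_mod_cast (by omega : 2 ≤ N)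
  set x : ℕ := ⌈10 * (N : ℝ) * Real.log N⌉₊ with hx
  have hx1 : 10 * (N : ℝ) * Real.log N ≤ x := Nat.le_ceil _
  have hpos : 0 ≤ 10 * (N : ℝ) * Real.log N := by positivity
  have hx2 : (x : ℝ) ≤ 11 * N * Real.log N := by
    have := Nat.ceil_lt_add_one hpos
    nlinarith
  have hxn : n0 ≤ x := by
    have h5 : (N : ℝ) ≤ x := by nlinarith
    have : N ≤ x := by exact_mod_cast h5
    omega
  obtain ⟨g1, g2⟩ := h0 x hxn
  have hx0 : (0 : ℝ) < x := by nlinarith
  have hlx : Real.log x ≤ 2 * Real.log N := by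
    have : Real.log x ≤ Real.log ((N : ℝ) * N) := by
      apply Real.log_le_log hx0
      nlinarith
    rw [Real.log_mul (by linarith) (by linarith)] at this
    linarith
  have h6 : (2 : ℝ) * N < Nat.primeCounting x := by
    refine lt_of_lt_of_le ?_ g2
    rw [← mul_div_assoc, lt_div_iff₀ (by linarith)]
    nlinarith
  have h7 : 2 * N < Nat.primeCounting x := by exact_mod_cast h6
  have h8 : P (2 * N) ≤ x := (P_le_iff x (2 * N)).2 h7
  exact le_trans (by exact_mod_cast h8) hx2

/-- **pigeonhole** -/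
theorem main (θ τ : ℝ) (hθ : 0 < θ) (hτ : 0 ≤ τ) (h : θ * (1 + τ) < 1) : ∀ᶠ N : ℕ in atTop,
    ∀ S : Finset ℕ, (∀ m ∈ S, m < N ∧ ∀ l : ℕ, (l : ℝ) ≤ θ * Real.log N / Real.log (Real.log N) →
      θ * Real.log N / Real.log (Real.log N) < l + 1 → ∀ m' : ℕ, off m l = off m' l → m = m') →
    (#S : ℝ) ≤ 12 * N / Real.log N ^ τ := by
  have tl : Tendsto (fun N : ℕ => Real.log (N : ℝ)) atTop atTop :=
    Real.tendsto_log_atTop.comp tendsto_natCast_atTop_atTop
  have tll : Tendsto (fun N : ℕ => Real.log (Real.log (N : ℝ))) atTop atTop := Real.tendsto_log_atTop.comp tl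
  have th1 : θ < 1 := by nlinarith
  set η : ℝ := (1 - θ * (1 + τ)) / 2 with hη
  have hη0 : 0 < η := by rw [hη]; linarith
  -- `log N / loglog N → ∞`
  have e1 : ∀ᶠ N : ℕ in atTop, Real.log (Real.log N) ≤ θ * Real.log N := by
    have h1 := tl.eventually (Real.isLittleO_log_id_atTop.def hθ)
    filter_upwards [h1, tl.eventually_ge_atTop 1] with N h2 h3
    simp only [id, Real.norm_eq_abs] at h2
    rw [abs_of_nonneg (Real.log_nonneg h3), abs_of_nonneg (by linarith : (0 : ℝ) ≤ Real.log N)] at h2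
    exact h2
  -- `(log N)^τ ≤ N^{η/2}`
  have e2 : ∀ᶠ N : ℕ in atTop, τ * Real.log (Real.log N) ≤ η / 2 * Real.log N := by
    have h1 := tl.eventually (Real.isLittleO_log_id_atTop.def (show (0 : ℝ) < η / 2 / (τ + 1) by positivity))
    filter_upwards [h1, tl.eventually_ge_atTop 1] with N h2 h3
    simp only [id, Real.norm_eq_abs] at h2
    rw [abs_of_nonneg (Real.log_nonneg h3), abs_of_nonneg (by linarith : (0 : ℝ) ≤ Real.log N)] at h2
    have h4 : τ * Real.log (Real.log N) ≤ (τ + 1) * Real.log (Real.log N) :=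
      mul_le_mul_of_nonneg_right (by linarith) (Real.log_nonneg h3)
    refine h4.trans ((mul_le_mul_of_nonneg_left h2 (by linarith)).trans (le_of_eq ?_))
    field_simp
  filter_upwards [e1, e2, tl.eventually_ge_atTop 1, tll.eventually_ge_atTop (max 1 (4 / η)), P_two_le,
    eventually_ge_atTop 2] with N h1 h2 h3 h4 h5 h6
  intro S hS
  have hN : (2 : ℝ) ≤ N := by exact_mod_cast h6
  have hN0 : (0 : ℝ) < N := by linarith
  have hlN : (0 : ℝ) < Real.log N := by linarith
  have hll : (1 : ℝ) ≤ Real.log (Real.log N) := (le_max_left _ _).trans h4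
  have hll2 : 4 / η ≤ Real.log (Real.log N) := (le_max_right _ _).trans h4
  have hll0 : (0 : ℝ) < Real.log (Real.log N) := by linarith
  set Y : ℝ := θ * Real.log N / Real.log (Real.log N) with hY
  have hY1 : 1 ≤ Y := by rw [hY, one_le_div hll0]; exact h1
  set l : ℕ := ⌊Y⌋₊ with hl
  have hl1 : 1 ≤ l := Nat.le_floor (by exact_mod_cast hY1)
  have hlY : (l : ℝ) ≤ Y := Nat.floor_le (by linarith)
  have hlY2 : Y < l + 1 := Nat.lt_floor_add_one Y
  have hl0 : (0 : ℝ) < l := by exact_mod_cast hl1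
  have hlN' : l ≤ N := by
    have h7 : Y ≤ Real.log N := by
      rw [hY, div_le_iff₀ hll0]
      nlinarith
    have h8 : Real.log N ≤ N := (Real.log_le_sub_one_of_pos hN0).trans (by linarith)
    have : (l : ℝ) ≤ N := by linarith
    exact_mod_cast this
  set T : ℝ := Real.log N ^ τ with hT
  have hT1 : 1 ≤ T := Real.one_le_rpow h3 hτ
  set D : ℕ := ⌊l * T * Real.log N⌋₊ with hD
  have hDpos : 0 ≤ l * T * Real.log N := by positivity
  have hD1 : (D : ℝ) ≤ l * T * Real.log N := Nat.floor_le hDpos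
  have hD2 : l * T * Real.log N < D + 1 := Nat.lt_floor_add_one _
  classical
  -- the two parts
  set S1 := S.filter (fun m => P (m + l) - P m ≤ D) with hS1
  set S2 := S.filter (fun m => ¬ P (m + l) - P m ≤ D) with hS2
  have hsum : #S = #S1 + #S2 := (card_filter_add_card_filter_not _).symm
  have b1 : #S1 ≤ (D + 1).choose l := by
    apply card_narrow
    · intro m hm m' hm' he
      exact (hS m (mem_filter.1 hm).1).2 l hlY hlY2 m' he
    · intro m hm i
      refine le_trans ?_ (mem_filter.1 hm).2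
      unfold off
      have : P (m + i) ≤ P (m + l) := P_mono.monotone (by omega)
      omega
  have b2 := card_wide N l hlN' D S2 (fun m hm => ⟨(hS m (mem_filter.1 hm).1).1, by
    have := (mem_filter.1 hm).2
    omega⟩)
  have c2 : (#S2 : ℝ) ≤ 11 * N / T := by
    rw [le_div_iff₀ (by linarith)]
    have h7 : (#S2 : ℝ) * (D + 1) ≤ l * P (2 * N) := by exact_mod_cast b2
    have h8 : (#S2 : ℝ) * (l * T * Real.log N) ≤ l * (11 * N * Real.log N) :=
      (mul_le_mul_of_nonneg_left hD2.le (Nat.cast_nonneg _)).trans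
        (h7.trans (mul_le_mul_of_nonneg_left h5 hl0.le))
    have h9 : ((#S2 : ℝ) * T) * (l * Real.log N) ≤ (11 * N) * (l * Real.log N) := by linarith
    exact le_of_mul_le_mul_right h9 (by positivity)
  have c1 : (#S1 : ℝ) ≤ N / T := by
    have h7 : (#S1 : ℝ) ≤ (Real.exp 1 * (D + 1 : ℕ) / l) ^ l :=
      le_trans (by exact_mod_cast b1) (choose_bound (D + 1) l hl1)
    have h8 : Real.exp 1 * ((D + 1 : ℕ) : ℝ) / l ≤ Real.exp (2 + (1 + τ) * Real.log (Real.log N)) := by
      have h9 : ((D + 1 : ℕ) : ℝ) / l ≤ 2 * (T * Real.log N) := by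
        rw [div_le_iff₀ hl0]
        push_cast
        have : 1 ≤ l * T * Real.log N := by
          have : (1 : ℝ) ≤ l := by exact_mod_cast hl1
          nlinarith [mul_le_mul this hT1 (by norm_num) (by linarith)]
        linarith
      have h10 : T * Real.log N = Real.exp ((1 + τ) * Real.log (Real.log N)) := by
        rw [hT, Real.rpow_def_of_pos hlN]
        nth_rewrite 2 [← Real.exp_log hlN]
        rw [← Real.exp_add]
        congr 1; ring
      have h11 : Real.exp 1 * 2 ≤ Real.exp 2 := by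
        have : Real.exp 2 = Real.exp 1 * Real.exp 1 := by rw [← Real.exp_add]; norm_num
        rw [this]
        have := Real.exp_one_gt_d9
        nlinarith
      rw [mul_div_assoc, Real.exp_add, ← h10]
      calc Real.exp 1 * (((D + 1 : ℕ) : ℝ) / l) ≤ Real.exp 1 * (2 * (T * Real.log N)) :=
            mul_le_mul_of_nonneg_left h9 (Real.exp_pos _).le
        _ = (Real.exp 1 * 2) * (T * Real.log N) := by ring
        _ ≤ _ := mul_le_mul_of_nonneg_right h11 (by positivity)
    refine h7.trans ?_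
    refine (pow_le_pow_left₀ (by positivity) h8 l).trans ?_
    rw [← Real.exp_nat_mul]
    have h12 : (N : ℝ) / T = Real.exp (Real.log N - τ * Real.log (Real.log N)) := by
      rw [Real.exp_sub, Real.exp_log hN0, hT, Real.rpow_def_of_pos hlN, mul_comm τ]
    rw [h12]
    apply Real.exp_le_exp.2
    have h13 : (l : ℝ) * (2 + (1 + τ) * Real.log (Real.log N)) ≤ Y * (2 + (1 + τ) * Real.log (Real.log N)) :=
      mul_le_mul_of_nonneg_right hlY (by positivity)
    refine h13.trans ?_
    have h14 : Y * (2 + (1 + τ) * Real.log (Real.log N)) =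
        2 * Y + θ * (1 + τ) * Real.log N := by
      rw [hY]; field_simp
    rw [h14]
    have h15 : 2 * Y ≤ η / 2 * Real.log N := by
      rw [hY, ← mul_div_assoc, div_le_iff₀ hll0]
      have h16 : 2 ≤ η / 2 * Real.log (Real.log N) := by
        rw [div_le_iff₀ hη0] at hll2
        linarith
      calc 2 * (θ * Real.log N) ≤ 2 * (1 * Real.log N) := by
            apply mul_le_mul_of_nonneg_left _ (by norm_num)
            exact mul_le_mul_of_nonneg_right th1.le hlN.le
        _ = 2 * Real.log N := by ring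
        _ ≤ (η / 2 * Real.log (Real.log N)) * Real.log N := mul_le_mul_of_nonneg_right h16 hlN.le
        _ = _ := by ring
    have h17 : θ * (1 + τ) = 1 - 2 * η := by rw [hη]; ring
    rw [h17]
    nlinarith
  rw [hsum]
  push_cast
  have : 12 * (N : ℝ) / T = N / T + 11 * N / T := by ring
  rw [this]
  linarith

end Pool.Agent.H312R3.LK
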